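import Pool.Agent.H20.MAD.Def

/-! helper67: MAD, module CND (conditioning of a minimal plan). -/

set_option autoImplicit false

namespace Pool.MAD

open Finset
open scoped Classical

theorem t_cnd (hC : CNTStmt) : CNDStmt := by
  intro V _ n A W P S hA hP
  obtain ⟨c0, c1, c2, c3, c5, c6, c7⟩ := hC V
  obtain ⟨hPl, hmin⟩ := hP
  have hcv0 : ∀ y : List V, 0 ≤ cv W P y := fun y =>
    Finset.sum_nonneg fun w _ => mul_nonneg (hPl.nn w) (c0 y w)
  set p : ℝ := ∑ w ∈ W.filter (fun w => ∃ x ∈ w, x ∈ S), P w with hp
  have hp0 : 0 ≤ p := Finset.sum_nonneg fun w _ => hPl.nn w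
  have hsplit : p + ∑ w ∈ W.filter (fun w => ¬ ∃ x ∈ w, x ∈ S), P w = 1 := by
    rw [hp, Finset.sum_filter_add_sum_filter_not W (fun w => ∃ x ∈ w, x ∈ S) P, hPl.tot]
  have hterm : ∀ y : List V, 0 ≤ A ^ (y.length - 1) * cv W P y ^ 2 := fun y =>
    mul_nonneg (pow_nonneg hA _) (sq_nonneg _)
  constructor
  · set L : ℝ := ∑ y ∈ (ch V n).filter (fun y => ∃ x ∈ S, ∃ ys, y = x :: ys),
        A ^ (y.length - 1) * cv W P y ^ 2 with hL
    have hLE : L ≤ En n A (cv W P) :=
      Finset.sum_le_sum_of_subset_of_nonneg (Finset.filter_subset _ _) fun y _ _ => hterm y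
    have hE0 : 0 ≤ En n A (cv W P) := Finset.sum_nonneg fun y _ => hterm y
    rcases lt_or_ge p 1 with hlt | hge
    · have h1p : 0 < 1 - p := by linarith
      set P' : List V → ℝ :=
        fun w => if w ∈ W ∧ ¬ (∃ x ∈ w, x ∈ S) then P w / (1 - p) else 0 with hP'
      have key : ∀ F : List V → ℝ, ∑ w ∈ W, P' w * F w =
          (∑ w ∈ W.filter (fun w => ¬ ∃ x ∈ w, x ∈ S), P w * F w) / (1 - p) := by
        intro F
        rw [Finset.sum_div, Finset.sum_filter]
        apply Finset.sum_congr rfl
        intro w hw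
        by_cases hx : ∃ x ∈ w, x ∈ S
        · simp only [hP']
          rw [if_neg (fun h => h.2 hx), if_neg (not_not.mpr hx), zero_mul]
        · simp only [hP']
          rw [if_pos ⟨hw, hx⟩, if_pos hx]
          ring
      have hPl' : Pln W P' := by
        refine ⟨fun w => ?_, fun w hw => ?_, ?_⟩
        · simp only [hP']
          split_ifs
          · exact div_nonneg (hPl.nn w) h1p.le
          · exact le_rfl
        · simp only [hP']
          rw [if_neg (fun h => hw h.1)]
        · have h := key (fun _ => 1)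
          simp only [mul_one] at h
          rw [h, div_eq_one_iff_eq h1p.ne']
          linarith
      have hle := hmin P' hPl'
      have hcv' : ∀ y, 0 ≤ cv W P' y ∧ cv W P' y ≤ cv W P y / (1 - p) := by
        intro y
        refine ⟨Finset.sum_nonneg fun w _ => mul_nonneg (hPl'.nn w) (c0 y w), ?_⟩
        unfold cv
        rw [key (cnt y)]
        apply div_le_div_of_nonneg_right _ h1p.le
        exact Finset.sum_le_sum_of_subset_of_nonneg (Finset.filter_subset _ _)
          fun w _ _ => mul_nonneg (hPl.nn w) (c0 y w)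
      have hcvS : ∀ y, (∃ x ∈ S, ∃ ys, y = x :: ys) → cv W P' y = 0 := by
        rintro y ⟨x, hx, ys, rfl⟩
        unfold cv
        rw [key (cnt (x :: ys)), Finset.sum_eq_zero, zero_div]
        intro w hw
        rw [Finset.mem_filter] at hw
        rw [c5 (x :: ys) w x (by simp) (fun h => hw.2 ⟨x, h, hx⟩), mul_zero]
      have hE' : En n A (cv W P') ≤ (En n A (cv W P) - L) / (1 - p) ^ 2 := by
        have e1 : En n A (cv W P) - L =
            ∑ y ∈ (ch V n).filter (fun y => ¬ ∃ x ∈ S, ∃ ys, y = x :: ys),
              A ^ (y.length - 1) * cv W P y ^ 2 := by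
          have := Finset.sum_filter_add_sum_filter_not (ch V n)
            (fun y => ∃ x ∈ S, ∃ ys, y = x :: ys) (fun y => A ^ (y.length - 1) * cv W P y ^ 2)
          unfold En
          rw [← this]
          ring
        rw [e1, Finset.sum_div]
        have e2 : En n A (cv W P') =
            ∑ y ∈ (ch V n).filter (fun y => ¬ ∃ x ∈ S, ∃ ys, y = x :: ys),
              A ^ (y.length - 1) * cv W P' y ^ 2 := by
          have := Finset.sum_filter_add_sum_filter_not (ch V n)
            (fun y => ∃ x ∈ S, ∃ ys, y = x :: ys) (fun y => A ^ (y.length - 1) * cv W P' y ^ 2)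
          unfold En
          rw [← this]
          have z : ∑ y ∈ (ch V n).filter (fun y => ∃ x ∈ S, ∃ ys, y = x :: ys),
              A ^ (y.length - 1) * cv W P' y ^ 2 = 0 := by
            apply Finset.sum_eq_zero
            intro y hy
            rw [Finset.mem_filter] at hy
            rw [hcvS y hy.2]
            simp
          rw [z, zero_add]
        rw [e2]
        apply Finset.sum_le_sum
        intro y _
        rw [mul_div_assoc]
        apply mul_le_mul_of_nonneg_left _ (pow_nonneg hA _)
        rw [← div_pow]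
        exact pow_le_pow_left₀ (hcv' y).1 (hcv' y).2 2
      have h3 : En n A (cv W P) ≤ (En n A (cv W P) - L) / (1 - p) ^ 2 := hle.trans hE'
      rw [le_div_iff₀ (by positivity)] at h3
      nlinarith [mul_nonneg hE0 (sq_nonneg p)]
    · nlinarith
  · intro hn
    have h1 : ∀ x ∈ S, cv W P [x] ≤ nm n A (cv W P) := by
      intro x _
      unfold nm
      apply Real.le_sqrt_of_sq_le
      unfold En
      have hmem : [x] ∈ ch V n := by
        unfold ch
        simp [hn]
      have := Finset.single_le_sum (f := fun y => A ^ (y.length - 1) * cv W P y ^ 2)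
        (fun y _ => hterm y) hmem
      simpa using this
    have h2 : p ≤ ∑ x ∈ S, cv W P [x] := by
      unfold cv
      rw [Finset.sum_comm, hp, Finset.sum_filter]
      apply Finset.sum_le_sum
      intro w _
      split_ifs with hw
      · obtain ⟨x, hxw, hxS⟩ := hw
        calc P w = P w * 1 := (mul_one _).symm
          _ ≤ P w * cnt [x] w := mul_le_mul_of_nonneg_left (c6 w x hxw) (hPl.nn w)
          _ ≤ ∑ x ∈ S, P w * cnt [x] w :=
            Finset.single_le_sum (f := fun x => P w * cnt [x] w)
              (fun x _ => mul_nonneg (hPl.nn w) (c0 [x] w)) hxS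
      · exact Finset.sum_nonneg fun x _ => mul_nonneg (hPl.nn w) (c0 [x] w)
    calc p ≤ ∑ x ∈ S, cv W P [x] := h2
      _ ≤ ∑ _x ∈ S, nm n A (cv W P) := Finset.sum_le_sum h1
      _ = S.card * nm n A (cv W P) := by rw [Finset.sum_const, nsmul_eq_mul]

end Pool.MAD

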