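import Pool.Agent.H20.MAD.Def

/-! helper67: MAD, module GUA (the set of the good points is guarded). -/

set_option autoImplicit false

namespace Pool.MAD

open Finset
open scoped Classical

theorem t_gua (hP : PARStmt) (hH : HILStmt) : GUAStmt := by
  intro V _ N n A g a t B T' T v u Q hN hA hv hr0 hAr hmax hg hg1 ha ha1 ht ht4 hga hT hu hQ hE
  obtain ⟨-, h2, -, h4, -, -, -, -, -, -⟩ := hH V n A hA.le
  set r : ℝ := En n A (mv N n A B T v) with hr
  have hu' := hu
  rw [Ug, Finset.mem_filter] at hu'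
  obtain ⟨huB, hug⟩ := hu'
  have hnv : nm n A (mv N n A B T v) = Real.sqrt r := rfl
  have hβ : (1 - g) * Real.sqrt r ≤ nm n A (mv N n A B T u) := by
    have e := h2 (fun y => mv N n A B T v y - mv N n A B T u y) (mv N n A B T u)
    have e' : (fun y => mv N n A B T v y - mv N n A B T u y + mv N n A B T u y) =
        mv N n A B T v := by
      funext y
      ring
    rw [e', ← h4 (mv N n A B T u) (mv N n A B T v), hnv] at e
    rw [hnv] at hug
    linarith
  have hQa : nm n (2 * A) (cv (Wk N (Ug N n A B T v g) T' u) Q) ≤ a * Real.sqrt r := by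
    unfold nm
    calc Real.sqrt (En n (2 * A) (cv (Wk N (Ug N n A B T v g) T' u) Q)) ≤
        Real.sqrt (a ^ 2 * r) := Real.sqrt_le_sqrt hE
      _ = a * Real.sqrt r := by rw [Real.sqrt_mul (sq_nonneg a), Real.sqrt_sq ha]
  have main := hP V N n A r g a t (Ug N n A B T v g) B T' T u Q hN hA hr0 hAr
    (Finset.filter_subset _ _) hT hu hmax hg.le ha ha1 ht ht4 hga hβ hQ hQa
  refine le_trans (Finset.sum_le_sum_of_subset_of_nonneg ?_ fun w _ _ => hQ.nn w) main
  intro w hw
  rw [Finset.mem_filter] at hw ⊢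
  refine ⟨hw.1, fun hh => hw.2 ?_⟩
  obtain ⟨hzB, -, hz⟩ := hh
  rw [Ug, Finset.mem_filter]
  refine ⟨hzB, ?_⟩
  have e := h2 (fun y => mv N n A B T (lst u w) y - mv N n A B T u y)
    (fun y => mv N n A B T u y - mv N n A B T v y)
  have e' : (fun y => mv N n A B T (lst u w) y - mv N n A B T u y +
      (mv N n A B T u y - mv N n A B T v y)) =
      (fun y => mv N n A B T (lst u w) y - mv N n A B T v y) := by
    funext y
    ring
  rw [e'] at e
  rw [hnv] at hug ⊢
  linarith

end Pool.MAD

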